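import Pool.Agent.Helper51.LPS.St

/-!
# LPS module ALG0: null vectors with fixed second vector
-/

set_option autoImplicit false

namespace Pool.Agent.Helper71.LPS

open MeasureTheory Pool.Helper51.PSB Pool.Helper51.LPS

open MvPolynomial

private noncomputable def Alg0_sig (k : ℕ) : MvPolynomial (Fin (k + 2)) ℝ := ∑ l, X l ^ 2

private lemma Alg0_qf (k : ℕ) : finSuccEquiv ℝ (k + 2) (qf k) =
    Polynomial.X ^ 2 + Polynomial.C (Alg0_sig k) := by
  unfold qf Alg0_sig
  rw [Fin.sum_univ_succ, map_add, map_pow, finSuccEquiv_X_zero, map_sum, map_sum]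
  congr 1
  refine Finset.sum_congr rfl (fun i _ => ?_)
  rw [map_pow, finSuccEquiv_X_succ, map_pow]

/-- evaluation through `finSuccEquiv` -/
private lemma Alg0_eval (m : ℕ) (z : ℂ) (y : Fin m → ℂ) (P : MvPolynomial (Fin (m + 1)) ℝ) :
    aeval (Fin.cons z y : Fin (m + 1) → ℂ) P =
      Polynomial.eval₂ (aeval y : MvPolynomial (Fin m) ℝ →ₐ[ℝ] ℂ).toRingHom z (finSuccEquiv ℝ m P) := by
  induction P using MvPolynomial.induction_on with
  | C a =>
    rw [aeval_C]
    have : finSuccEquiv ℝ m (C a) = Polynomial.C (C a) := by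
      simp [finSuccEquiv_apply]
    rw [this, Polynomial.eval₂_C]
    simp
  | add p q hp hq => rw [map_add, map_add, Polynomial.eval₂_add, hp, hq]
  | mul_X p i hp =>
    rw [map_mul, map_mul, Polynomial.eval₂_mul, hp, aeval_X]
    congr 1
    refine Fin.cases ?_ (fun j => ?_) i
    · rw [finSuccEquiv_X_zero, Polynomial.eval₂_X, Fin.cons_zero]
    · rw [finSuccEquiv_X_succ, Polynomial.eval₂_C, Fin.cons_succ]
      simp

private lemma Alg0_hom (m d : ℕ) (P : MvPolynomial (Fin m) ℝ) (hP : P.IsHomogeneous d) (t : ℂ)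
    (x : Fin m → ℂ) : aeval (fun l => t * x l) P = t ^ d * aeval x P := by
  rw [aeval_def, aeval_def, eval₂_eq', eval₂_eq', Finset.mul_sum]
  refine Finset.sum_congr rfl (fun s hs => ?_)
  have hd : ∑ i, s i = d := by
    have := hP (mem_support_iff.mp hs)
    rw [← this]
    simp [Finsupp.weight_apply, Finsupp.sum_fintype]
  have : ∏ i, (t * x i) ^ s i = t ^ d * ∏ i, x i ^ s i := by
    simp_rw [mul_pow]
    rw [Finset.prod_mul_distrib, Finset.prod_pow_eq_pow_sum, hd]
  rw [this]
  ring

theorem hAlg0 : StAlg0 := by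
  intro k d P hP h
  set E := finSuccEquiv ℝ (k + 2) with hE
  have hq : E (qf k) = Polynomial.X ^ 2 + Polynomial.C (Alg0_sig k) := Alg0_qf k
  have hmon : (E (qf k)).Monic := by
    rw [hq]
    exact Polynomial.monic_X_pow_add_C _ (by norm_num)
  have hdeg : (E (qf k)).natDegree = 2 := by
    rw [hq]
    exact Polynomial.natDegree_X_pow_add_C
  set r := E P %ₘ E (qf k) with hr
  have hrdeg : r.natDegree ≤ 1 := by
    have h1 : r.natDegree < (E (qf k)).natDegree := by
      refine Polynomial.natDegree_modByMonic_lt _ hmon ?_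
      intro h0
      rw [h0] at hdeg
      simp at hdeg
    omega
  have hrform : r = Polynomial.C (r.coeff 1) * Polynomial.X + Polynomial.C (r.coeff 0) :=
    Polynomial.eq_X_add_C_of_natDegree_le_one hrdeg
  have hdiv : r + E (qf k) * (E P /ₘ E (qf k)) = E P := Polynomial.modByMonic_add_div _ _
  -- key evaluation
  have hkey : ∀ y : Fin (k + 2) → ℝ, y ≠ 0 → eval y (r.coeff 1) = 0 ∧ eval y (r.coeff 0) = 0 := by
    intro y hy
    set S : ℝ := ∑ l, y l ^ 2 with hS
    have hSpos : 0 < S := by
      obtain ⟨i, hi⟩ : ∃ i, y i ≠ 0 := by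
        by_contra hcon
        push Not at hcon
        exact hy (funext hcon)
      refine Finset.sum_pos' (fun l _ => sq_nonneg _) ⟨i, Finset.mem_univ _, ?_⟩
      positivity
    set ρ : ℝ := Real.sqrt S with hρ
    have hρpos : 0 < ρ := Real.sqrt_pos.mpr hSpos
    have hρ2 : ρ ^ 2 = S := Real.sq_sqrt hSpos.le
    set z : ℂ := -Complex.I * ρ with hz
    have hz2 : z ^ 2 = -(S : ℂ) := by
      rw [hz, mul_pow, neg_pow, Complex.I_sq, ← hρ2]
      push_cast
      ring
    -- P vanishes
    have hP0 : aeval (Fin.cons z (fun l => (y l : ℂ)) : Fin (k + 2 + 1) → ℂ) P = 0 := by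
      have h1 := h (Fin.cons 0 (fun l => y l / ρ)) ?_ ?_
      · have h2 := Alg0_hom (k + 3) d P hP ((2 * ρ : ℝ) : ℂ)
          (fun l => (((Fin.cons 0 (fun l => y l / ρ) : Fin (k + 3) → ℝ) l : ℂ) - Complex.I *
            (if l = 0 then 1 else 0)) / 2)
        rw [h1, mul_zero] at h2
        rw [← h2]
        congr 2
        funext l
        refine Fin.cases ?_ (fun j => ?_) l
        · simp only [Fin.cons_zero, if_true]
          rw [hz]
          push_cast
          ring
        · simp only [Fin.cons_succ]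
          have : (ρ : ℂ) ≠ 0 := by exact_mod_cast hρpos.ne'
          rw [if_neg (Fin.succ_ne_zero j)]
          push_cast
          field_simp
          ring
      · rw [Fin.sum_univ_succ]
        simp only [Fin.cons_zero, Fin.cons_succ, div_pow]
        rw [← Finset.sum_div, ← hS, hρ2]
        field_simp
        simp
      · simp
    have hev := Alg0_eval (k + 2) z (fun l => (y l : ℂ)) P
    rw [hP0, ← hE, ← hdiv, Polynomial.eval₂_add, Polynomial.eval₂_mul, hq] at hev
    have hσ : (aeval (fun l => (y l : ℂ)) : MvPolynomial (Fin (k + 2)) ℝ →ₐ[ℝ] ℂ).toRingHom (Alg0_sig k) = (S : ℂ) := by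
      unfold Alg0_sig
      simp [hS]
    have hq0 : Polynomial.eval₂ (aeval (fun l => (y l : ℂ)) : MvPolynomial (Fin (k + 2)) ℝ →ₐ[ℝ] ℂ).toRingHom z
        (Polynomial.X ^ 2 + Polynomial.C (Alg0_sig k)) = 0 := by
      rw [Polynomial.eval₂_add, Polynomial.eval₂_pow, Polynomial.eval₂_X, Polynomial.eval₂_C, hσ, hz2]
      ring
    rw [hq0, zero_mul, add_zero, hrform, Polynomial.eval₂_add, Polynomial.eval₂_mul, Polynomial.eval₂_C,
      Polynomial.eval₂_X, Polynomial.eval₂_C] at hev
    have hreal : ∀ Q : MvPolynomial (Fin (k + 2)) ℝ,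
        (aeval (fun l => (y l : ℂ)) : MvPolynomial (Fin (k + 2)) ℝ →ₐ[ℝ] ℂ).toRingHom Q = ((eval y Q : ℝ) : ℂ) := by
      intro Q
      have := MvPolynomial.aeval_algebraMap_apply ℂ y Q
      simp only [Complex.coe_algebraMap] at this
      rw [show (aeval (fun l => (y l : ℂ)) : MvPolynomial (Fin (k + 2)) ℝ →ₐ[ℝ] ℂ).toRingHom Q =
        aeval (fun l => (y l : ℂ)) Q from rfl]
      rw [show (fun l => (y l : ℂ)) = (fun l => ((y l : ℝ) : ℂ)) from rfl]
      exact this
    rw [hreal, hreal] at hev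
    have him := congrArg Complex.im hev
    have hre := congrArg Complex.re hev
    simp [hz] at him hre
    constructor
    · rcases him with h1 | h1
      · exact h1
      · exact absurd h1 hρpos.ne'
    · exact hre.symm
  have hzero : ∀ b : MvPolynomial (Fin (k + 2)) ℝ, (∀ y : Fin (k + 2) → ℝ, y ≠ 0 → eval y b = 0) → b = 0 := by
    intro b hb
    have h1 : X 0 * b = 0 := by
      refine MvPolynomial.funext (fun y => ?_)
      rw [map_mul, eval_X, map_zero]
      by_cases hy : y = 0
      · rw [hy]; simp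
      · rw [hb y hy, mul_zero]
    rcases mul_eq_zero.mp h1 with h2 | h2
    · exact absurd h2 (X_ne_zero 0)
    · exact h2
  have hr0 : r = 0 := by
    rw [hrform, hzero _ (fun y hy => (hkey y hy).1), hzero _ (fun y hy => (hkey y hy).2)]
    simp
  have hdvd : E (qf k) ∣ E P := (Polynomial.modByMonic_eq_zero_iff_dvd hmon).mp hr0
  exact (map_dvd_iff E).mp hdvd

end Pool.Agent.Helper71.LPS
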